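import Pool.Agent.DWF.QB

set_option autoImplicit false

namespace DWF

open Matrix
open scoped Kronecker

section gen

variable {k : Type*} [Field k] {R S : Type*} [CommRing R] [CommRing S] [Algebra k R] [Algebra k S]
  [Algebra R S] [IsScalarTower k R S]

/-- `g` is the `d`-th power of a matrix with entries in `V`, in a way that allows sums -/
def Good (q : k) (d : ℕ) (V : Submodule R S) (g : S) : Prop :=
  ∃ (n : Type) (_ : Fintype n) (_ : DecidableEq n) (_ : Nonempty n) (X : Matrix n n S)
    (D : Matrix n n R), (∀ i j, X i j ∈ V) ∧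
    X * D.map (algebraMap R S) = q • (D.map (algebraMap R S) * X) ∧ D ^ d = 1 ∧
    X ^ d = g • (1 : Matrix n n S)

lemma kron_pow {n m : Type*} [Fintype n] [Fintype m] [DecidableEq n] [DecidableEq m]
    {T : Type*} [CommRing T] (A : Matrix n n T) (B : Matrix m m T) (e : ℕ) :
    (A ⊗ₖ B) ^ e = (A ^ e) ⊗ₖ (B ^ e) := by
  induction e with
  | zero => simp
  | succ e ih => rw [pow_succ, ih, pow_succ, pow_succ, ← Matrix.mul_kronecker_mul]

lemma Good.add {q : k} {d : ℕ} (hd : 0 < d) (hq : IsPrimitiveRoot q d) {V : Submodule R S}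
    {g g' : S} (h : Good q d V g) (h' : Good q d V g') : Good q d V (g + g') := by
  obtain ⟨n, i1, i2, i3, X, D, hX, hXD, hD, hXd⟩ := h
  obtain ⟨m, j1, j2, j3, Y, E, hY, hYE, hE, hYd⟩ := h'
  refine ⟨n × m, inferInstance, inferInstance, inferInstance,
    X ⊗ₖ (1 : Matrix m m S) + (D.map (algebraMap R S)) ⊗ₖ Y, D ⊗ₖ E, ?_, ?_, ?_, ?_⟩
  · rintro ⟨i, j⟩ ⟨i', j'⟩
    refine V.add_mem ?_ ?_
    · simp only [Matrix.kroneckerMap_apply]
      by_cases hjj : j = j'
      · subst hjj; simpa using hX i i'
      · simp [Matrix.one_apply_ne hjj]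
    · simp only [Matrix.kroneckerMap_apply, Matrix.map_apply]
      rw [← Algebra.smul_def]
      exact V.smul_mem _ (hY j j')
  · have e1 : (D ⊗ₖ E).map (algebraMap R S) =
        (D.map (algebraMap R S)) ⊗ₖ (E.map (algebraMap R S)) := by
      ext ⟨i, j⟩ ⟨i', j'⟩
      simp
    rw [e1, add_mul, mul_add, ← Matrix.mul_kronecker_mul, ← Matrix.mul_kronecker_mul,
      ← Matrix.mul_kronecker_mul, ← Matrix.mul_kronecker_mul, hXD, hYE, Matrix.one_mul,
      Matrix.mul_one, Matrix.smul_kronecker, Matrix.kronecker_smul, smul_add]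
  · rw [kron_pow, hD, hE]
    simp
  · have hc : (X ⊗ₖ (1 : Matrix m m S)) * ((D.map (algebraMap R S)) ⊗ₖ Y) =
        q • (((D.map (algebraMap R S)) ⊗ₖ Y) * (X ⊗ₖ (1 : Matrix m m S))) := by
      rw [← Matrix.mul_kronecker_mul, ← Matrix.mul_kronecker_mul, hXD, Matrix.one_mul,
        Matrix.mul_one, Matrix.smul_kronecker]
    rw [add_pow_of_root q hd hq hc, kron_pow, kron_pow, hXd, hYd, one_pow]
    have e2 : (D.map (algebraMap R S)) ^ d = 1 := by
      have := congrArg (fun M => M.map (algebraMap R S)) hD
      simpa [Matrix.map_pow] using this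
    rw [e2, Matrix.smul_kronecker, Matrix.kronecker_smul, Matrix.one_kronecker_one, ← add_smul]

end gen

section cyc

variable {k : Type*} [Field k] {R S : Type*} [CommRing R] [CommRing S] [Algebra k R] [Algebra k S]
  [Algebra R S] [IsScalarTower k R S]

/-- the cyclic matrix -/
def cyc {n : ℕ} (l : ZMod (n + 1) → S) : Matrix (ZMod (n + 1)) (ZMod (n + 1)) S :=
  fun i j => if j = i + 1 then l i else 0

lemma cyc_pow {n : ℕ} (l : ZMod (n + 1) → S) (e : ℕ) (i j : ZMod (n + 1)) :
    ((cyc l) ^ e) i j = if j = i + e then ∏ r ∈ Finset.range e, l (i + r) else 0 := by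
  induction e generalizing j with
  | zero =>
    simp only [pow_zero, Nat.cast_zero, add_zero, Finset.range_zero, Finset.prod_empty]
    by_cases h : i = j
    · subst h; simp
    · rw [Matrix.one_apply_ne h, if_neg (fun h' => h h'.symm)]
  | succ e ih =>
    rw [pow_succ, Matrix.mul_apply]
    simp only [ih]
    rw [Finset.sum_eq_single (i + (e : ZMod (n + 1)))]
    · simp only [if_true, cyc]
      by_cases h : j = i + (e : ZMod (n + 1)) + 1
      · rw [if_pos h, if_pos (by rw [h]; push_cast; ring), Finset.prod_range_succ]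
      · rw [if_neg h, if_neg (fun h' => h (by rw [h']; push_cast; ring)), mul_zero]
    · intro b _ hb
      rw [if_neg hb, zero_mul]
    · intro h; exact absurd (Finset.mem_univ _) h

lemma prod_zmod {n : ℕ} (g : ZMod (n + 1) → S) :
    ∏ r ∈ Finset.range (n + 1), g (r : ZMod (n + 1)) = ∏ j, g j := by
  rw [Finset.prod_range]
  refine Finset.prod_congr rfl ?_
  intro i _
  congr 1
  exact ZMod.natCast_zmod_val (n := n + 1) i

lemma cyc_pow_card {n : ℕ} (l : ZMod (n + 1) → S) :
    (cyc l) ^ (n + 1) = (∏ j, l j) • (1 : Matrix (ZMod (n + 1)) (ZMod (n + 1)) S) := by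
  ext i j
  rw [cyc_pow]
  have h0 : ((n + 1 : ℕ) : ZMod (n + 1)) = 0 := ZMod.natCast_self (n + 1)
  rw [h0, add_zero, Matrix.smul_apply]
  by_cases h : j = i
  · subst h
    rw [if_pos rfl, Matrix.one_apply_eq, smul_eq_mul, mul_one,
      prod_zmod (fun r => l (j + r))]
    exact Fintype.prod_equiv (Equiv.addLeft j) _ _ (fun x => rfl)
  · rw [if_neg h, Matrix.one_apply_ne (fun h' => h h'.symm), smul_zero]

lemma Good.prod (q : k) (n : ℕ) (hq : q ^ (n + 1) = 1) (V : Submodule R S)
    (l : ZMod (n + 1) → S) (hl : ∀ i, l i ∈ V) : Good q (n + 1) V (∏ j, l j) := by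
  have hq' : ∀ a b : ℕ, a % (n + 1) = b % (n + 1) → q ^ a = q ^ b := by
    intro a b hab
    rw [← Nat.div_add_mod a (n + 1), ← Nat.div_add_mod b (n + 1), hab, pow_add, pow_add, pow_mul,
      pow_mul, hq, one_pow, one_pow]
  refine ⟨ZMod (n + 1), inferInstance, inferInstance, inferInstance, cyc l,
    Matrix.diagonal (fun i => algebraMap k R (q ^ i.val)), ?_, ?_, ?_, ?_⟩
  · intro i j
    unfold cyc
    split_ifs
    · exact hl i
    · exact V.zero_mem
  · have e1 : (Matrix.diagonal (fun i : ZMod (n + 1) => algebraMap k R (q ^ i.val))).map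
        (algebraMap R S) = Matrix.diagonal (fun i => algebraMap k S (q ^ i.val)) := by
      rw [Matrix.diagonal_map (map_zero _)]
      congr 1
      ext i
      exact (IsScalarTower.algebraMap_apply k R S _).symm
    rw [e1]
    ext i j
    rw [Matrix.mul_diagonal, Matrix.smul_apply, Matrix.diagonal_mul]
    unfold cyc
    split_ifs with h
    · rw [Algebra.smul_def, ← mul_assoc, ← map_mul, mul_comm]
      congr 2
      rw [← pow_succ', h]
      apply hq'
      rw [ZMod.val_add, Nat.mod_mod]
      conv_lhs => rw [Nat.add_mod]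
      conv_rhs => rw [Nat.add_mod]
      rcases n with _ | n
      · simp [Nat.mod_one]
      · haveI : Fact (1 < n + 1 + 1) := ⟨by omega⟩
        rw [ZMod.val_one]
    · simp
  · rw [Matrix.diagonal_pow]
    rw [← Matrix.diagonal_one]
    congr 1
    ext i
    simp only [Pi.pow_apply]
    rw [← map_pow, ← pow_mul, mul_comm, pow_mul, hq, one_pow, map_one]
  · exact cyc_pow_card l

end cyc


section final

variable {k : Type*} [Field k] {R : Type*} [CommRing R] [Algebra k R] {σ : Type*}

/-- the affine linear polynomials -/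
noncomputable def affV (R σ : Type*) [CommRing R] : Submodule R (MvPolynomial σ R) :=
  Submodule.span R ({1} ∪ Set.range (MvPolynomial.X : σ → MvPolynomial σ R))

lemma one_mem_affV : (1 : MvPolynomial σ R) ∈ affV R σ :=
  Submodule.subset_span (Or.inl rfl)

lemma X_mem_affV (i : σ) : (MvPolynomial.X i : MvPolynomial σ R) ∈ affV R σ :=
  Submodule.subset_span (Or.inr ⟨i, rfl⟩)

lemma affV_totalDegree {g : MvPolynomial σ R} (h : g ∈ affV R σ) : g.totalDegree ≤ 1 := by
  unfold affV at h
  induction h using Submodule.span_induction with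
  | mem x hx =>
    rcases hx with hx | ⟨i, rfl⟩
    · rw [Set.mem_singleton_iff.mp hx]; simp
    · rcases subsingleton_or_nontrivial R with h | h
      · rw [Subsingleton.elim (MvPolynomial.X i : MvPolynomial σ R) 0]; simp
      · rw [MvPolynomial.totalDegree_X]
  | zero => simp
  | add x y _ _ hx hy => exact (MvPolynomial.totalDegree_add x y).trans (max_le hx hy)
  | smul a x _ hx => exact (MvPolynomial.totalDegree_smul_le a x).trans hx

lemma monomial_prod (d : ℕ) : ∀ (m : σ →₀ ℕ) (c : R), m.degree ≤ d + 1 →
    ∃ l : Fin (d + 1) → MvPolynomial σ R, (∀ i, l i ∈ affV R σ) ∧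
      MvPolynomial.monomial m c = ∏ i, l i := by
  induction d with
  | zero =>
    intro m c hm
    refine ⟨fun _ => MvPolynomial.monomial m c, fun _ => ?_, by simp⟩
    rcases Nat.lt_or_ge m.degree 1 with h | h
    · have : m = 0 := by
        rw [← Finsupp.degree_eq_zero_iff]; omega
      subst this
      have : (MvPolynomial.monomial (0 : σ →₀ ℕ) c : MvPolynomial σ R) = c • 1 := by
        rw [MvPolynomial.smul_eq_C_mul, mul_one]; rfl
      rw [this]
      exact (affV R σ).smul_mem _ one_mem_affV
    · have hne : m ≠ 0 := by rintro rfl; simp at h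
      obtain ⟨i, hi⟩ := Finsupp.ne_iff.mp hne
      have hi' : Finsupp.single i 1 ≤ m := by
        rw [Finsupp.single_le_iff]; simp at hi; omega
      have hm2 : m = Finsupp.single i 1 + (m - Finsupp.single i 1) :=
        (add_tsub_cancel_of_le hi').symm
      have hdeg : (m - Finsupp.single i 1).degree = 0 := by
        have := congrArg Finsupp.degree hm2
        rw [map_add, Finsupp.degree_single] at this
        omega
      have : m = Finsupp.single i 1 := by
        rw [Finsupp.degree_eq_zero_iff] at hdeg
        rw [hm2, hdeg, add_zero]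
      rw [this]
      have : (MvPolynomial.monomial (Finsupp.single i 1) c : MvPolynomial σ R) =
          c • MvPolynomial.X i := by
        rw [MvPolynomial.X, MvPolynomial.smul_monomial, smul_eq_mul, mul_one]
      rw [this]
      exact (affV R σ).smul_mem _ (X_mem_affV i)
  | succ d ih =>
    intro m c hm
    by_cases hne : m = 0
    · obtain ⟨l, hl, hl2⟩ := ih m c (by rw [hne]; simp)
      refine ⟨Fin.cons 1 l, ?_, ?_⟩
      · intro i
        refine Fin.cases ?_ (fun j => ?_) i
        · simpa using one_mem_affV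
        · simpa using hl j
      · rw [Fin.prod_univ_succ]; simp [hl2]
    · obtain ⟨i, hi⟩ := Finsupp.ne_iff.mp hne
      have hi' : Finsupp.single i 1 ≤ m := by
        rw [Finsupp.single_le_iff]; simp at hi; omega
      have hm2 : m = Finsupp.single i 1 + (m - Finsupp.single i 1) :=
        (add_tsub_cancel_of_le hi').symm
      have hdeg : (m - Finsupp.single i 1).degree ≤ d + 1 := by
        have := congrArg Finsupp.degree hm2
        rw [map_add, Finsupp.degree_single] at this
        omega
      obtain ⟨l, hl, hl2⟩ := ih _ c hdeg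
      refine ⟨Fin.cons (MvPolynomial.X i) l, ?_, ?_⟩
      · intro j
        refine Fin.cases ?_ (fun j => ?_) j
        · simpa using X_mem_affV i
        · simpa using hl j
      · rw [Fin.prod_univ_succ]
        simp only [Fin.cons_zero, Fin.cons_succ, ← hl2]
        conv_lhs => rw [hm2]
        rw [MvPolynomial.X, MvPolynomial.monomial_mul, one_mul]

variable [Algebra k (MvPolynomial σ R)] [IsScalarTower k R (MvPolynomial σ R)]

lemma Good.poly {q : k} {d : ℕ} (hq : IsPrimitiveRoot q (d + 1)) (f : MvPolynomial σ R)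
    (hf : f.totalDegree ≤ d + 1) : Good q (d + 1) (affV R σ) f := by
  classical
  have hmono : ∀ m ∈ f.support, Good q (d + 1) (affV R σ)
      (MvPolynomial.monomial m (f.coeff m)) := by
    intro m hm
    have hdeg : m.degree ≤ d + 1 := by
      refine le_trans ?_ hf
      exact MvPolynomial.le_totalDegree hm
    obtain ⟨l, hl, hl2⟩ := monomial_prod d m (f.coeff m) hdeg
    have := Good.prod (R := R) q d hq.pow_eq_one (affV R σ) (fun i : ZMod (d + 1) => l i)
      (fun i => hl i)
    rw [hl2]
    exact this
  have hzero : Good q (d + 1) (affV R σ) (0 : MvPolynomial σ R) := by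
    have := Good.prod (R := R) q d hq.pow_eq_one (affV R σ)
      (fun _ : ZMod (d + 1) => (0 : MvPolynomial σ R)) (fun i => (affV R σ).zero_mem)
    simpa using this
  have key : ∀ s ⊆ f.support, Good q (d + 1) (affV R σ)
      (∑ m ∈ s, MvPolynomial.monomial m (f.coeff m)) := by
    intro s
    induction s using Finset.induction_on with
    | empty => intro _; simpa using hzero
    | insert a s ha ih =>
      intro hs
      rw [Finset.sum_insert ha]
      exact Good.add (Nat.succ_pos d) hq (hmono a (hs (Finset.mem_insert_self a s)))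
        (ih (fun x hx => hs (Finset.mem_insert_of_mem hx)))
  have := key f.support (Finset.Subset.refl _)
  rwa [← MvPolynomial.as_sum f] at this


lemma affV_eq [Fintype σ] {g : MvPolynomial σ R} (h : g ∈ affV R σ) :
    g = MvPolynomial.C (MvPolynomial.constantCoeff g) +
      ∑ i, MvPolynomial.X i * MvPolynomial.C (g.coeff (Finsupp.single i 1)) := by
  classical
  unfold affV at h
  induction h using Submodule.span_induction with
  | mem x hx =>
    rcases hx with hx | ⟨i, rfl⟩
    · rw [Set.mem_singleton_iff.mp hx]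
      have h1 : ∑ i : σ, (MvPolynomial.X i : MvPolynomial σ R) *
          MvPolynomial.C ((1 : MvPolynomial σ R).coeff (Finsupp.single i 1)) = 0 := by
        refine Finset.sum_eq_zero fun i _ => ?_
        rw [MvPolynomial.coeff_one, if_neg]
        · simp
        · intro h
          have := congrArg (fun m : σ →₀ ℕ => m i) h
          simp at this
      rw [h1, map_one, map_one, add_zero]
    · rw [MvPolynomial.constantCoeff_X, map_zero, zero_add, Finset.sum_eq_single i]
      · simp
      · intro j _ hj
        rw [MvPolynomial.coeff_X', if_neg]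
        · simp
        · intro h
          exact hj ((Finsupp.single_left_injective one_ne_zero h).symm)
      · intro h; exact absurd (Finset.mem_univ i) h
  | zero => simp
  | add x y _ _ hx hy =>
    conv_lhs => rw [hx, hy]
    simp only [map_add, MvPolynomial.coeff_add, mul_add, Finset.sum_add_distrib]
    abel
  | smul a x _ hx =>
    have h1 : MvPolynomial.constantCoeff (a • x) = a * MvPolynomial.constantCoeff x := by
      rw [MvPolynomial.smul_eq_C_mul]; simp
    have h2 : ∀ i : σ, (a • x).coeff (Finsupp.single i 1) = a * x.coeff (Finsupp.single i 1) := by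
      intro i; rw [MvPolynomial.smul_eq_C_mul, MvPolynomial.coeff_C_mul]
    rw [h1]
    simp only [h2, map_mul]
    conv_lhs => rw [hx, MvPolynomial.smul_eq_C_mul, mul_add, Finset.mul_sum]
    congr 1
    refine Finset.sum_congr rfl fun i _ => ?_
    ring

lemma totalDegree_pow_entry {n : Type*} [Fintype n] [DecidableEq n]
    {X : Matrix n n (MvPolynomial σ R)} (hX : ∀ i j, (X i j).totalDegree ≤ 1) (e : ℕ) :
    ∀ i j, ((X ^ e) i j).totalDegree ≤ e := by
  induction e with
  | zero =>
    intro i j
    by_cases h : i = j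
    · subst h; simp
    · simp [Matrix.one_apply_ne h]
  | succ e ih =>
    intro i j
    rw [pow_succ, Matrix.mul_apply]
    refine MvPolynomial.totalDegree_finsetSum_le fun l _ => ?_
    exact (MvPolynomial.totalDegree_mul _ _).trans (add_le_add (ih i l) (hX l j))

/-- the pencil `1 - sum_i X_i A_i` -/
noncomputable def pencil {n : Type*} [Fintype n] [DecidableEq n] [Fintype σ]
    (A : σ → Matrix n n R) : Matrix n n (MvPolynomial σ R) :=
  1 - ∑ i, (MvPolynomial.X i : MvPolynomial σ R) • (A i).map (MvPolynomial.C : R →+* MvPolynomial σ R)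

/-- the pencil of `A` divides `f`, with cofactor `P` of degree `d`; it is, up to a constant
invertible matrix, a matrix `X` with `X ^ (d + 1) = f`. -/
structure Fac {n : Type*} [Fintype n] [DecidableEq n] [Fintype σ] (f : MvPolynomial σ R) (d : ℕ)
    (A : σ → Matrix n n R) (P : Matrix n n (MvPolynomial σ R)) : Prop where
  left : pencil A * P = f • (1 : Matrix n n (MvPolynomial σ R))
  right : P * pencil A = f • (1 : Matrix n n (MvPolynomial σ R))
  deg : ∀ i j, (P i j).totalDegree ≤ d
  root : ∃ X W Y : Matrix n n (MvPolynomial σ R), pencil A = W * X ∧ W * Y = 1 ∧ Y * W = 1 ∧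
    X ^ (d + 1) = f • (1 : Matrix n n (MvPolynomial σ R))

omit [Algebra k (MvPolynomial σ R)] [IsScalarTower k R (MvPolynomial σ R)] [Algebra k R] in
lemma Fac.isUnit {n : Type*} [Fintype n] [DecidableEq n] [Nonempty n] [Fintype σ]
    {f : MvPolynomial σ R} {d : ℕ} {A : σ → Matrix n n R} {P : Matrix n n (MvPolynomial σ R)}
    (h : Fac f d A P) (hu : IsUnit (pencil A)) : IsUnit f := by
  obtain ⟨X, W, Y, hL, hWY, hYW, hX⟩ := h.root
  have hXu : IsUnit X := by
    have h1 : X = Y * pencil A := by rw [hL, ← mul_assoc, hYW, one_mul]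
    rw [h1]
    exact (IsUnit.of_mul_eq_one W hYW).mul hu
  have h2 : IsUnit (f • (1 : Matrix n n (MvPolynomial σ R))) := by
    rw [← hX]; exact hXu.pow _
  rw [Matrix.isUnit_iff_isUnit_det, Matrix.det_smul, Matrix.det_one, mul_one] at h2
  exact (isUnit_pow_iff Fintype.card_ne_zero).mp h2

/-- THE LEMMA OF BACKELIN-HERZOG-SANDERS, affine form. -/
theorem linear_factor [Fintype σ] {q : k} {d : ℕ} (hq : IsPrimitiveRoot q (d + 1))
    (f : MvPolynomial σ R) (hf : f.totalDegree ≤ d + 1)
    (h0 : MvPolynomial.constantCoeff f = 1) :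
    ∃ (n : Type) (_ : Fintype n) (_ : DecidableEq n) (_ : Nonempty n) (A : σ → Matrix n n R)
      (P : Matrix n n (MvPolynomial σ R)), Fac f d A P := by
  classical
  obtain ⟨n, i1, i2, i3, X, D, hX, -, -, hXd⟩ := Good.poly hq f hf
  let ε : MvPolynomial σ R →+* R := MvPolynomial.constantCoeff
  let ι : R →+* MvPolynomial σ R := MvPolynomial.C
  have hει : ∀ M : Matrix n n R, (M.map ι).map ε = M := by
    intro M; ext i j; simp [ε, ι]
  set X0 : Matrix n n R := X.map ε with hX0
  have hX0d : X0 ^ (d + 1) = 1 := by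
    have h1 : (X ^ (d + 1)).map ε = X0 ^ (d + 1) := by
      rw [hX0]
      exact map_pow ε.mapMatrix X (d + 1)
    rw [← h1, hXd]
    ext i j
    by_cases h : i = j
    · subst h
      simp only [Matrix.map_apply, Matrix.smul_apply, Matrix.one_apply_eq, smul_eq_mul, mul_one]
      exact h0
    · simp [Matrix.one_apply_ne h, Matrix.smul_apply]
  have hW1 : X0 ^ d * X0 = 1 := by rw [← pow_succ]; exact hX0d
  have hW2 : X0 * X0 ^ d = 1 := by rw [← pow_succ']; exact hX0d
  have hmapmul : ∀ M N : Matrix n n R, (M * N).map ι = M.map ι * N.map ι := by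
    intro M N; exact map_mul ι.mapMatrix M N
  have hmapone : (1 : Matrix n n R).map ι = 1 := by exact map_one ι.mapMatrix
  set W : Matrix n n (MvPolynomial σ R) := (X0 ^ d).map ι with hW
  set Y : Matrix n n (MvPolynomial σ R) := X0.map ι with hY
  have hWY : W * Y = 1 := by rw [hW, hY, ← hmapmul, hW1, hmapone]
  have hYW : Y * W = 1 := by rw [hW, hY, ← hmapmul, hW2, hmapone]
  set L : Matrix n n (MvPolynomial σ R) := W * X with hL
  have hLV : ∀ i j, L i j ∈ affV R σ := by
    intro i j
    rw [hL, Matrix.mul_apply]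
    refine Submodule.sum_mem _ fun l _ => ?_
    have : W i l * X l j = ((X0 ^ d) i l) • X l j := by
      rw [MvPolynomial.smul_eq_C_mul]; rfl
    rw [this]
    exact (affV R σ).smul_mem _ (hX l j)
  have hLε : L.map ε = 1 := by
    have : (W * X).map ε = W.map ε * X.map ε := map_mul ε.mapMatrix W X
    rw [hL, this, hW, hει, ← hX0, hW1]
  let A : σ → Matrix n n R := fun s => fun i j => - (L i j).coeff (Finsupp.single s 1)
  have hLA : L = pencil A := by
    ext1 i j
    rw [affV_eq (hLV i j), pencil, Matrix.sub_apply, Matrix.sum_apply]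
    have h1 : MvPolynomial.constantCoeff (L i j) = (1 : Matrix n n R) i j := by
      rw [← hLε]; rfl
    rw [h1]
    have h2 : (MvPolynomial.C ((1 : Matrix n n R) i j) : MvPolynomial σ R) =
        (1 : Matrix n n (MvPolynomial σ R)) i j := by
      rw [← hmapone]; rfl
    rw [h2, sub_eq_add_neg, ← Finset.sum_neg_distrib]
    congr 1
    refine Finset.sum_congr rfl fun s _ => ?_
    simp only [Matrix.smul_apply, Matrix.map_apply, smul_eq_mul, A, map_neg, mul_neg, neg_neg]
  refine ⟨n, i1, i2, i3, A, X ^ d * Y, ?_, ?_, ?_, ?_⟩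
  · rw [← hLA, hL]
    calc W * X * (X ^ d * Y) = W * (X * X ^ d) * Y := by simp only [mul_assoc]
      _ = W * (X ^ (d + 1)) * Y := by rw [← pow_succ']
      _ = f • (1 : Matrix n n (MvPolynomial σ R)) := by
        rw [hXd, Matrix.mul_smul, Matrix.mul_one, Matrix.smul_mul, hWY]
  · rw [← hLA, hL]
    calc X ^ d * Y * (W * X) = X ^ d * (Y * W) * X := by simp only [mul_assoc]
      _ = X ^ (d + 1) := by rw [hYW, mul_one, ← pow_succ]
      _ = f • (1 : Matrix n n (MvPolynomial σ R)) := hXd
  · intro i j
    rw [Matrix.mul_apply]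
    refine MvPolynomial.totalDegree_finsetSum_le fun l _ => ?_
    refine (MvPolynomial.totalDegree_mul _ _).trans ?_
    have h1 := totalDegree_pow_entry (fun i j => affV_totalDegree (hX i j)) d i l
    have h2 : (Y l j).totalDegree = 0 := by
      rw [hY]; exact MvPolynomial.totalDegree_C _
    omega
  · exact ⟨X, W, Y, by rw [← hLA], hWY, hYW, hXd⟩

end final

end DWF
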