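import Mathlib

set_option autoImplicit false

namespace DWF

/-- q-binomial coefficients: `qb q n k` is the coefficient of `y^k x^(n-k)` in `(x+y)^n` when
`x * y = q * (y * x)`. -/
def qb {k : Type*} [Field k] (q : k) : ℕ → ℕ → k
  | _, 0 => 1
  | 0, (_ + 1) => 0
  | (n + 1), (m + 1) => q ^ (n - m) * qb q n m + qb q n (m + 1)

variable {k : Type*} [Field k] (q : k)

@[simp] lemma qb_zero (n : ℕ) : qb q n 0 = 1 := by cases n <;> rfl

@[simp] lemma qb_zero_succ (m : ℕ) : qb q 0 (m + 1) = 0 := rfl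

lemma qb_succ (n m : ℕ) :
    qb q (n + 1) (m + 1) = q ^ (n - m) * qb q n m + qb q n (m + 1) := rfl

lemma qb_gt : ∀ (n m : ℕ), n < m → qb q n m = 0
  | 0, 0, h => absurd h (lt_irrefl _)
  | 0, (m + 1), _ => rfl
  | (n + 1), 0, h => absurd h (Nat.not_lt_zero _)
  | (n + 1), (m + 1), h => by
    rw [qb_succ, qb_gt n m (by omega), qb_gt n (m + 1) (by omega)]
    simp

@[simp] lemma qb_self : ∀ n : ℕ, qb q n n = 1
  | 0 => rfl
  | (n + 1) => by
    rw [qb_succ, qb_self n, qb_gt q n (n + 1) (by omega)]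
    simp

/-- the binomial theorem -/
lemma add_pow_q {A : Type*} [Ring A] [Algebra k A] {x y : A} (h : x * y = q • (y * x)) (n : ℕ) :
    (x + y) ^ n = ∑ m ∈ Finset.range (n + 1), qb q n m • (y ^ m * x ^ (n - m)) := by
  have hxn : ∀ j : ℕ, x ^ j * y = q ^ j • (y * x ^ j) := by
    intro j
    induction j with
    | zero => simp
    | succ j ih =>
      rw [pow_succ', mul_assoc, ih, mul_smul_comm, ← mul_assoc, h, smul_mul_assoc, smul_smul,
        mul_assoc]
      rw [← pow_succ, ← pow_succ']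
  induction n with
  | zero => simp
  | succ n ih =>
    rw [pow_succ, ih, Finset.sum_mul]
    have e1 : ∀ m ∈ Finset.range (n + 1),
        qb q n m • (y ^ m * x ^ (n - m)) * (x + y) =
        qb q n m • (y ^ m * x ^ (n + 1 - m)) + (q ^ (n - m) * qb q n m) • (y ^ (m + 1) * x ^ (n - m)) := by
      intro m hm
      have hm' : m ≤ n := Nat.lt_succ_iff.mp (Finset.mem_range.mp hm)
      rw [mul_add]
      congr 1
      · have e0 : n + 1 - m = n - m + 1 := by omega
        rw [smul_mul_assoc, mul_assoc, ← pow_succ, e0]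
      · rw [smul_mul_assoc, mul_assoc, hxn, mul_smul_comm, ← mul_assoc, ← pow_succ, smul_smul,
          mul_comm (qb q n m)]
    rw [Finset.sum_congr rfl e1, Finset.sum_add_distrib]
    rw [Finset.sum_range_succ' (fun m => qb q (n + 1) m • (y ^ m * x ^ (n + 1 - m)))]
    have e2 : ∀ m ∈ Finset.range (n + 1),
        qb q (n + 1) (m + 1) • (y ^ (m + 1) * x ^ (n + 1 - (m + 1))) =
        (q ^ (n - m) * qb q n m) • (y ^ (m + 1) * x ^ (n - m)) +
          qb q n (m + 1) • (y ^ (m + 1) * x ^ (n - m)) := by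
      intro m _
      have e0 : n + 1 - (m + 1) = n - m := by omega
      rw [qb_succ, add_smul, e0]
    rw [Finset.sum_congr rfl e2, Finset.sum_add_distrib]
    have e3 : ∑ m ∈ Finset.range (n + 1), qb q n m • (y ^ m * x ^ (n + 1 - m)) =
        ∑ m ∈ Finset.range (n + 1), qb q n (m + 1) • (y ^ (m + 1) * x ^ (n - m)) +
          qb q (n + 1) 0 • (y ^ 0 * x ^ (n + 1 - 0)) := by
      rw [Finset.sum_range_succ' , Finset.sum_range_succ (fun m => qb q n (m + 1) • (y ^ (m + 1) * x ^ (n - m)))]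
      rw [qb_gt q n (n + 1) (by omega)]
      simp
    rw [e3]
    abel

lemma qb_mul : ∀ (n m : ℕ), (q ^ (m + 1) - 1) * qb q (n + 1) (m + 1) = (q ^ (n + 1) - 1) * qb q n m
  | 0, 0 => by simp [qb_succ]
  | 0, (m + 1) => by
    rw [qb_succ]
    simp
  | (n + 1), 0 => by
    have h := qb_mul n 0
    rw [qb_succ]
    simp only [zero_add, pow_one, qb_zero, mul_one, Nat.sub_zero] at h ⊢
    rw [mul_add, h]
    ring
  | (n + 1), (m + 1) => by
    have h1 := qb_mul n m
    have h2 := qb_mul n (m + 1)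
    rw [qb_succ q (n + 1) (m + 1)]
    rcases lt_or_ge n m with hnm | hnm
    · rw [qb_gt q (n + 1) (m + 1) (by omega), qb_gt q (n + 1) (m + 1 + 1) (by omega)]
      simp
    · have e : n + 1 - (m + 1) = n - m := by omega
      rw [e]
      have hq : q ^ (n - m) * q ^ (m + 1) = q ^ (n + 1) := by
        rw [← pow_add]; congr 1; omega
      have h3 := qb_succ q n m
      -- (q^(m+2) - 1) (q^(n-m) b(n+1,m+1) + b(n+1,m+2)) = (q^(n+2) - 1) b(n+1,m+1)
      have : (q ^ (m + 1 + 1) - 1) * (q ^ (n - m) * qb q (n + 1) (m + 1) + qb q (n + 1) (m + 1 + 1)) =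
          (q ^ (m + 1 + 1) - 1) * q ^ (n - m) * qb q (n + 1) (m + 1) +
            (q ^ (n + 1) - 1) * qb q n (m + 1) := by
        rw [mul_add, h2]; ring
      rw [this]
      have h4 : qb q n (m + 1) = qb q (n + 1) (m + 1) - q ^ (n - m) * qb q n m := by
        rw [h3]; ring
      rw [h4]
      have h5 : (q ^ (m + 1) - 1) * qb q (n + 1) (m + 1) * q ^ (n - m) =
          (q ^ (n + 1) - 1) * qb q n m * q ^ (n - m) := by rw [h1]
      have h6 : q ^ (m + 1 + 1) * q ^ (n - m) = q ^ (n + 1 + 1) := by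
        rw [← pow_add]; congr 1; omega
      linear_combination qb q (n + 1) (m + 1) * h6 + h5 - qb q (n + 1) (m + 1) * hq

/-- the dream of a freshman for q-commuting elements -/
lemma add_pow_of_root {A : Type*} [Ring A] [Algebra k A] {d : ℕ} (hd : 0 < d)
    (hq : IsPrimitiveRoot q d) {x y : A} (h : x * y = q • (y * x)) :
    (x + y) ^ d = x ^ d + y ^ d := by
  rw [add_pow_q q h d, Finset.sum_range_succ]
  obtain ⟨n, rfl⟩ : ∃ n, d = n + 1 := ⟨d - 1, by omega⟩
  rw [Finset.sum_range_succ']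
  rw [Finset.sum_eq_zero]
  · simp
  · intro m hm
    have hm' := Finset.mem_range.mp hm
    have h1 := qb_mul q n m
    rw [hq.pow_eq_one, sub_self, zero_mul] at h1
    have h2 : q ^ (m + 1) ≠ 1 := by
      intro h3
      have := hq.dvd_of_pow_eq_one _ h3
      have := Nat.le_of_dvd (by omega) this
      omega
    rcases mul_eq_zero.mp h1 with h3 | h3
    · exact absurd (sub_eq_zero.mp h3) h2
    · rw [h3, zero_smul]

end DWF
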