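import Pool.Agent.DWF.Scale

set_option autoImplicit false

namespace DWF

open Matrix Polynomial

section root

variable {R : Type*} [CommRing R]

/-- `u ↦ z`, `v ↦ x z` -/
noncomputable def Th : MvPolynomial (Fin 2) R →+* R[X][X] :=
  MvPolynomial.eval₂Hom ((C : R[X] →+* R[X][X]).comp (C : R →+* R[X]))
    ![(X : R[X][X]), (C (X : R[X])) * (X : R[X][X])]

lemma Th_C (r : R) : Th (MvPolynomial.C r) = C (C r) := by
  simp [Th]

lemma Th_X0 : Th (MvPolynomial.X 0 : MvPolynomial (Fin 2) R) = X := by
  simp [Th]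

lemma Th_X1 : Th (MvPolynomial.X 1 : MvPolynomial (Fin 2) R) = C X * X := by
  simp [Th]

lemma Th_monomial (m : Fin 2 →₀ ℕ) (r : R) :
    Th (MvPolynomial.monomial m r) = C (C r * X ^ (m 1)) * X ^ (m 0 + m 1) := by
  rw [Th, MvPolynomial.coe_eval₂Hom, MvPolynomial.eval₂_monomial]
  rw [Finsupp.prod_fintype _ _ (fun i => pow_zero _)]
  simp only [Fin.prod_univ_two, Matrix.cons_val_zero, Matrix.cons_val_one, mul_pow, map_mul,
    map_pow, RingHom.comp_apply]
  ring

lemma natDegree_Th (g : MvPolynomial (Fin 2) R) : (Th g).natDegree ≤ g.totalDegree := by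
  classical
  conv_lhs => rw [MvPolynomial.as_sum g, map_sum]
  refine Polynomial.natDegree_sum_le_of_forall_le _ _ fun m hm => ?_
  rw [Th_monomial]
  refine (Polynomial.natDegree_C_mul_X_pow_le _ _).trans ?_
  have h1 := MvPolynomial.le_totalDegree hm
  have h2 : (m.sum fun _ e => e) = m 0 + m 1 := by
    rw [Finsupp.sum_fintype _ _ (fun _ => rfl), Fin.sum_univ_two]
  omega

variable {n : Type*} [Fintype n] [DecidableEq n]

/-- `A + x B` -/
noncomputable def TT (A B : Matrix n n R) : Matrix n n R[X] :=
  A.map (C : R →+* R[X]) + (X : R[X]) • B.map (C : R →+* R[X])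

lemma Th_pencil (A : Fin 2 → Matrix n n R) :
    (Th (R := R)).mapMatrix (pencil A) =
      1 - (X : R[X][X]) • (TT (A 0) (A 1)).map (C : R[X] →+* R[X][X]) := by
  unfold pencil
  rw [map_sub, map_one, map_sum, Fin.sum_univ_two]
  congr 1
  ext1 a b
  simp only [RingHom.mapMatrix_apply, Matrix.map_apply, Matrix.smul_apply, smul_eq_mul, map_mul,
    Matrix.add_apply, Th_X0, Th_X1, Th_C, TT, map_add]
  ring

/-- the root form of a linear factorisation -/
lemma root_of_fac {d : ℕ} {f : MvPolynomial (Fin 2) R} {A : Fin 2 → Matrix n n R}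
    {P : Matrix n n (MvPolynomial (Fin 2) R)} (hF : Fac f d A P) :
    ∑ j ∈ Finset.range (d + 2), ((Th f).coeff j) • (TT (A 0) (A 1)) ^ (d + 1 - j) = 0 := by
  set T := TT (A 0) (A 1) with hT
  set Q : Matrix n n R[X][X] := (Th (R := R)).mapMatrix P with hQ
  have h1 : (1 - (X : R[X][X]) • T.map (C : R[X] →+* R[X][X])) * Q =
      (Th f) • (1 : Matrix n n R[X][X]) := by
    rw [← Th_pencil, hQ, ← map_mul, hF.left]
    ext1 a b
    simp only [RingHom.mapMatrix_apply, Matrix.map_apply, Matrix.smul_apply, smul_eq_mul, map_mul]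
    congr 1
    by_cases hab : a = b
    · subst hab; simp
    · simp [Matrix.one_apply_ne hab]
  -- coefficient matrices
  let p : ℕ → Matrix n n R[X] := fun j => fun a b => (Q a b).coeff j
  have hp0 : ((Th f).coeff 0) • (1 : Matrix n n R[X]) = p 0 := by
    ext1 a b
    have := congrArg (fun M => (M a b).coeff 0) h1
    simp only [sub_mul, one_mul, Matrix.sub_apply, Matrix.smul_mul, Matrix.smul_apply,
      smul_eq_mul, Polynomial.coeff_sub, Polynomial.coeff_X_mul_zero, sub_zero] at this
    rw [show p 0 a b = (Q a b).coeff 0 from rfl, this, Matrix.smul_apply, smul_eq_mul]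
    by_cases hab : a = b
    · subst hab; simp
    · simp [Matrix.one_apply_ne hab]
  have hps : ∀ j, ((Th f).coeff (j + 1)) • (1 : Matrix n n R[X]) = p (j + 1) - T * p j := by
    intro j
    ext1 a b
    have := congrArg (fun M => (M a b).coeff (j + 1)) h1
    simp only [sub_mul, one_mul, Matrix.sub_apply, Matrix.smul_mul, Matrix.smul_apply,
      smul_eq_mul, Polynomial.coeff_sub, Polynomial.coeff_X_mul] at this
    have e1 : ((T.map (C : R[X] →+* R[X][X]) * Q) a b).coeff j = (T * p j) a b := by
      rw [Matrix.mul_apply, Matrix.mul_apply, Polynomial.finset_sum_coeff]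
      refine Finset.sum_congr rfl fun c _ => ?_
      rw [Matrix.map_apply, Polynomial.coeff_C_mul]
    rw [e1] at this
    rw [Matrix.sub_apply, show p (j + 1) a b = (Q a b).coeff (j + 1) from rfl, this,
      Matrix.smul_apply, smul_eq_mul]
    by_cases hab : a = b
    · subst hab; simp
    · simp [Matrix.one_apply_ne hab]
  have hpd : p (d + 1) = 0 := by
    ext1 a b
    refine Polynomial.coeff_eq_zero_of_natDegree_lt ?_
    have h2 := natDegree_Th (P a b)
    have h3 := hF.deg a b
    have h4 : Q a b = Th (P a b) := rfl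
    rw [h4]; omega
  have key : ∀ m, m ≤ d + 1 →
      ∑ j ∈ Finset.range (m + 1), ((Th f).coeff j) • T ^ (d + 1 - j) = T ^ (d + 1 - m) * p m := by
    intro m
    induction m with
    | zero =>
      intro _
      rw [Finset.sum_range_one, ← hp0, Matrix.mul_smul, Matrix.mul_one]
    | succ m ih =>
      intro hm
      rw [Finset.sum_range_succ, ih (by omega)]
      have e1 : ((Th f).coeff (m + 1)) • T ^ (d + 1 - (m + 1)) =
          T ^ (d + 1 - (m + 1)) * (p (m + 1) - T * p m) := by
        rw [← hps, Matrix.mul_smul, Matrix.mul_one]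
      have e2 : T ^ (d + 1 - m) = T ^ (d + 1 - (m + 1)) * T := by
        rw [← pow_succ]; congr 1; omega
      rw [e1, e2, mul_sub, mul_assoc]
      abel
  have := key (d + 1) le_rfl
  rw [this, hpd, Matrix.mul_zero]

end root

section power

variable {k : Type*} [Field k]

/-- the polynomial in `u, v` with `Th f = ∑ c_j z ^ j` -/
noncomputable def build {R : Type*} [CommRing R] (c : ℕ → R[X]) (D : ℕ) :
    MvPolynomial (Fin 2) R :=
  ∑ j ∈ Finset.range (D + 1), ∑ i ∈ Finset.range (j + 1),
    MvPolynomial.monomial (Finsupp.single 0 (j - i) + Finsupp.single 1 i) ((c j).coeff i)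

lemma Th_build {R : Type*} [CommRing R] (c : ℕ → R[X]) (D : ℕ)
    (hdeg : ∀ j, (c j).natDegree ≤ j) :
    Th (build c D) = ∑ j ∈ Finset.range (D + 1), C (c j) * X ^ j := by
  rw [build, map_sum]
  refine Finset.sum_congr rfl fun j _ => ?_
  rw [map_sum]
  conv_rhs => rw [Polynomial.as_sum_range_C_mul_X_pow' (c j) (Nat.lt_succ_of_le (hdeg j))]
  rw [map_sum, Finset.sum_mul]
  refine Finset.sum_congr rfl fun i hi => ?_
  have hi' : i ≤ j := Nat.lt_succ_iff.mp (Finset.mem_range.mp hi)
  rw [Th_monomial]
  have e1 : (Finsupp.single (0 : Fin 2) (j - i) + Finsupp.single 1 i : Fin 2 →₀ ℕ) 1 = i := by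
    simp
  have e2 : (Finsupp.single (0 : Fin 2) (j - i) + Finsupp.single 1 i : Fin 2 →₀ ℕ) 0 = j - i := by
    simp
  rw [e1, e2, Nat.sub_add_cancel hi']

lemma coeff_build_deg {R : Type*} [CommRing R] (c : ℕ → R[X]) (D : ℕ) :
    (build c D).totalDegree ≤ D := by
  refine MvPolynomial.totalDegree_finsetSum_le fun j hj => ?_
  refine MvPolynomial.totalDegree_finsetSum_le fun i hi => ?_
  refine (MvPolynomial.totalDegree_monomial_le _ _).trans ?_
  have hi' : i ≤ j := Nat.lt_succ_iff.mp (Finset.mem_range.mp hi)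
  have hj' : j ≤ D := Nat.lt_succ_iff.mp (Finset.mem_range.mp hj)
  have h3 : ((Finsupp.single (0 : Fin 2) (j - i) + Finsupp.single 1 i : Fin 2 →₀ ℕ).degree) =
      (j - i) + i := by
    rw [map_add, Finsupp.degree_single, Finsupp.degree_single]
  have h4 : ((Finsupp.single (0 : Fin 2) (j - i) + Finsupp.single 1 i : Fin 2 →₀ ℕ).sum
      fun _ => id) = (j - i) + i := h3
  omega

theorem root_form {q : k} {d : ℕ} (hq : IsPrimitiveRoot q (d + 1))
    (c : ℕ → Polynomial (PowerSeries k)) (h0 : c 0 = 1) (hdeg : ∀ j, (c j).natDegree ≤ j)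
    (hs : ∀ j, j ≠ 0 → ∀ i, PowerSeries.constantCoeff ((c j).coeff i) = 0) :
    ∃ (n : Type) (_ : Fintype n) (_ : DecidableEq n) (_ : Nonempty n)
      (A B : Matrix n n (PowerSeries k)), (∀ a b, PowerSeries.X ∣ A a b) ∧
      (∀ a b, PowerSeries.X ∣ B a b) ∧
      ∑ j ∈ Finset.range (d + 2),
        ((c j).map (PowerSeries.expand (d + 2) (Nat.succ_ne_zero _)).toRingHom) •
          (TT A B) ^ (d + 1 - j) = 0 := by
  classical
  set f := build c (d + 1) with hf
  have hcf : MvPolynomial.constantCoeff f = 1 ∧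
      ∀ m : Fin 2 →₀ ℕ, m ≠ 0 → PowerSeries.constantCoeff (f.coeff m) = 0 := by
    have hgen : ∀ m : Fin 2 →₀ ℕ, f.coeff m = ∑ j ∈ Finset.range (d + 2),
        ∑ i ∈ Finset.range (j + 1),
          if (Finsupp.single 0 (j - i) + Finsupp.single 1 i : Fin 2 →₀ ℕ) = m
            then (c j).coeff i else 0 := by
      intro m
      rw [hf, build, MvPolynomial.coeff_sum]
      refine Finset.sum_congr rfl fun j _ => ?_
      rw [MvPolynomial.coeff_sum]
      refine Finset.sum_congr rfl fun i _ => ?_
      rw [MvPolynomial.coeff_monomial]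
    constructor
    · rw [MvPolynomial.constantCoeff_eq, hgen 0, Finset.sum_range_succ']
      rw [Finset.sum_eq_zero]
      · simp [h0]
      · intro j _
        refine Finset.sum_eq_zero fun i hi => ?_
        rw [if_neg]
        intro h
        have h1 := congrArg Finsupp.degree h
        have hi' := Nat.lt_succ_iff.mp (Finset.mem_range.mp hi)
        rw [map_add, Finsupp.degree_single, Finsupp.degree_single, map_zero] at h1
        omega
    · intro m hm
      rw [hgen m, map_sum]
      refine Finset.sum_eq_zero fun j _ => ?_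
      rw [map_sum]
      refine Finset.sum_eq_zero fun i hi => ?_
      split_ifs with h
      · by_cases hj : j = 0
        · subst hj
          have hi' : i = 0 := by
            have := Finset.mem_range.mp hi; omega
          subst hi'
          simp at h
          exact absurd h.symm hm
        · exact hs j hj i
      · exact map_zero _
  obtain ⟨n, i1, i2, i3, A, P, hF, hA⟩ := scaled_factor hq f (coeff_build_deg c (d + 1)) hcf.1 hcf.2
  refine ⟨n, i1, i2, i3, A 0, A 1, hA 0, hA 1, ?_⟩
  have h1 := root_of_fac hF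
  set e : PowerSeries k →+* PowerSeries k :=
    (PowerSeries.expand (d + 2) (Nat.succ_ne_zero _)).toRingHom with he
  have h2 : MvPolynomial.map e f = build (fun j => (c j).map e) (d + 1) := by
    rw [hf, build, build, map_sum]
    refine Finset.sum_congr rfl fun j _ => ?_
    rw [map_sum]
    refine Finset.sum_congr rfl fun i _ => ?_
    rw [MvPolynomial.map_monomial, Polynomial.coeff_map]
  have h3 : Th (MvPolynomial.map e f) = ∑ j ∈ Finset.range (d + 1 + 1), C ((c j).map e) * X ^ j := by
    rw [h2]
    exact Th_build _ _ (fun j => (Polynomial.natDegree_map_le).trans (hdeg j))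
  rw [← h1]
  refine Finset.sum_congr rfl fun j hj => ?_
  congr 1
  rw [h3, Polynomial.finset_sum_coeff, Finset.sum_eq_single j]
  · simp
  · intro i _ hij
    rw [Polynomial.coeff_C_mul, Polynomial.coeff_X_pow, if_neg (fun h => hij h.symm), mul_zero]
  · intro h; exact absurd hj h

end power

end DWF
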