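import Pool.Agent.DWF.LF

set_option autoImplicit false

namespace DWF

open Matrix

section scale

variable {R : Type*} [CommRing R] {σ : Type*}

/-- the substitution `X_i ↦ s X_i` -/
noncomputable def rho (s : R) : MvPolynomial σ R →ₐ[R] MvPolynomial σ R :=
  MvPolynomial.aeval (fun i => MvPolynomial.C s * MvPolynomial.X i)

lemma rho_monomial (s : R) (m : σ →₀ ℕ) (c : R) :
    rho s (MvPolynomial.monomial m c) = MvPolynomial.monomial m (s ^ m.degree * c) := by
  rw [rho, MvPolynomial.aeval_monomial, MvPolynomial.algebraMap_eq]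
  simp only [mul_pow]
  rw [Finsupp.prod_mul]
  have h1 : (m.prod fun _ k => (MvPolynomial.C s : MvPolynomial σ R) ^ k) =
      MvPolynomial.C (s ^ m.degree) := by
    rw [Finsupp.prod, Finset.prod_pow_eq_pow_sum, ← map_pow, Finsupp.degree_apply]
  rw [h1, ← mul_assoc, ← map_mul, mul_comm c]
  conv_rhs => rw [MvPolynomial.monomial_eq]

lemma coeff_rho (s : R) (g : MvPolynomial σ R) (m : σ →₀ ℕ) :
    (rho s g).coeff m = s ^ m.degree * g.coeff m := by
  classical
  conv_lhs => rw [MvPolynomial.as_sum g]
  rw [map_sum]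
  simp only [rho_monomial]
  rw [MvPolynomial.coeff_sum]
  simp only [MvPolynomial.coeff_monomial]
  rw [Finset.sum_ite_eq']
  split_ifs with h
  · rfl
  · rw [MvPolynomial.notMem_support_iff.mp h, mul_zero]

lemma totalDegree_rho (s : R) (g : MvPolynomial σ R) : (rho s g).totalDegree ≤ g.totalDegree := by
  refine MvPolynomial.totalDegree_le_of_support_subset ?_
  intro m hm
  rw [MvPolynomial.mem_support_iff, coeff_rho] at hm
  rw [MvPolynomial.mem_support_iff]
  intro h
  rw [h, mul_zero] at hm
  exact hm rfl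

lemma exists_rho (s : R) (g : MvPolynomial σ R) (h : ∀ m, s ^ m.degree ∣ g.coeff m) :
    ∃ g' : MvPolynomial σ R, rho s g' = g ∧ g'.totalDegree ≤ g.totalDegree ∧
      MvPolynomial.constantCoeff g' = MvPolynomial.constantCoeff g := by
  classical
  choose c hc using h
  have h1 : rho s (∑ m ∈ g.support, MvPolynomial.monomial m (c m)) = g := by
    rw [map_sum]
    simp only [rho_monomial, ← hc]
    exact (MvPolynomial.as_sum g).symm
  refine ⟨∑ m ∈ g.support, MvPolynomial.monomial m (c m), h1, ?_, ?_⟩
  · refine MvPolynomial.totalDegree_finsetSum_le fun m hm => ?_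
    refine le_trans (MvPolynomial.totalDegree_monomial_le _ _) ?_
    exact MvPolynomial.le_totalDegree hm
  · have h2 := congrArg (fun p => MvPolynomial.coeff 0 p) h1
    simp only [coeff_rho] at h2
    rw [MvPolynomial.constantCoeff_eq, ← h2]
    simp

lemma map_pencil [Fintype σ] {n : Type*} [Fintype n] [DecidableEq n] (s : R)
    (A : σ → Matrix n n R) :
    (rho (σ := σ) s).toRingHom.mapMatrix (pencil A) = pencil (fun i => s • A i) := by
  unfold pencil
  rw [map_sub, map_one, map_sum]
  congr 1
  refine Finset.sum_congr rfl fun i _ => ?_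
  ext1 a b
  simp only [RingHom.mapMatrix_apply, Matrix.map_apply, Matrix.smul_apply, smul_eq_mul,
    AlgHom.toRingHom_eq_coe, RingHom.coe_coe, map_mul]
  have h1 : rho s (MvPolynomial.X i : MvPolynomial σ R) = MvPolynomial.C s * MvPolynomial.X i := by
    rw [rho, MvPolynomial.aeval_X]
  have h2 : rho s (MvPolynomial.C (A i a b) : MvPolynomial σ R) = MvPolynomial.C (A i a b) := by
    rw [rho, MvPolynomial.aeval_C, MvPolynomial.algebraMap_eq]
  rw [h1, h2]
  ring

lemma Fac.rho [Fintype σ] {n : Type*} [Fintype n] [DecidableEq n] {f : MvPolynomial σ R} {d : ℕ}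
    {A : σ → Matrix n n R} {P : Matrix n n (MvPolynomial σ R)} (h : Fac f d A P) (s : R) :
    Fac (DWF.rho s f) d (fun i => s • A i) ((DWF.rho (σ := σ) s).toRingHom.mapMatrix P) := by
  have hf : (DWF.rho (σ := σ) s).toRingHom.mapMatrix (f • (1 : Matrix n n (MvPolynomial σ R))) =
      (DWF.rho s f) • (1 : Matrix n n (MvPolynomial σ R)) := by
    ext1 i j
    simp only [RingHom.mapMatrix_apply, Matrix.map_apply, Matrix.smul_apply, smul_eq_mul,
      AlgHom.toRingHom_eq_coe, RingHom.coe_coe, map_mul]
    congr 1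
    by_cases hij : i = j
    · subst hij; simp
    · simp [Matrix.one_apply_ne hij]
  refine ⟨?_, ?_, ?_, ?_⟩
  · rw [← map_pencil, ← map_mul, h.left, hf]
  · rw [← map_pencil, ← map_mul, h.right, hf]
  · intro i j
    simp only [RingHom.mapMatrix_apply, Matrix.map_apply, AlgHom.toRingHom_eq_coe, RingHom.coe_coe]
    exact (totalDegree_rho s _).trans (h.deg i j)
  · obtain ⟨X, W, Y, hL, hWY, hYW, hX⟩ := h.root
    refine ⟨(DWF.rho (σ := σ) s).toRingHom.mapMatrix X, (DWF.rho (σ := σ) s).toRingHom.mapMatrix W,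
      (DWF.rho (σ := σ) s).toRingHom.mapMatrix Y, ?_, ?_, ?_, ?_⟩
    · rw [← map_pencil, hL, map_mul]
    · rw [← map_mul, hWY, map_one]
    · rw [← map_mul, hYW, map_one]
    · rw [← map_pow, hX, hf]

end scale

section power

variable {k : Type*} [Field k] {σ : Type*} [Fintype σ]

/-- SCALING. `f = 1` modulo `s`: after `s ↦ s ^ (d + 2)` the pencil has entries divisible by `s`. -/
theorem scaled_factor {q : k} {d : ℕ} (hq : IsPrimitiveRoot q (d + 1))
    (f : MvPolynomial σ (PowerSeries k)) (hf : f.totalDegree ≤ d + 1)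
    (h0 : MvPolynomial.constantCoeff f = 1)
    (h1 : ∀ m : σ →₀ ℕ, m ≠ 0 → PowerSeries.constantCoeff (f.coeff m) = 0) :
    ∃ (n : Type) (_ : Fintype n) (_ : DecidableEq n) (_ : Nonempty n)
      (A : σ → Matrix n n (PowerSeries k)) (P : Matrix n n (MvPolynomial σ (PowerSeries k))),
      Fac (MvPolynomial.map (PowerSeries.expand (d + 2) (Nat.succ_ne_zero _)).toRingHom f) d A P ∧
      ∀ i a b, PowerSeries.X ∣ A i a b := by
  classical
  set e : PowerSeries k →+* PowerSeries k :=
    (PowerSeries.expand (d + 2) (Nat.succ_ne_zero _)).toRingHom with he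
  set g : MvPolynomial σ (PowerSeries k) := MvPolynomial.map e f with hg
  have hgdeg : g.totalDegree ≤ d + 1 := le_trans (MvPolynomial.totalDegree_le_of_support_subset (MvPolynomial.support_map_subset e f)) hf
  have hdiv : ∀ m : σ →₀ ℕ, (PowerSeries.X : PowerSeries k) ^ m.degree ∣ g.coeff m := by
    intro m
    rw [hg, MvPolynomial.coeff_map]
    by_cases hm : m = 0
    · subst hm; simp
    · by_cases hd : m.degree ≤ d + 1
      · have h2 := h1 m hm
        rw [← PowerSeries.X_dvd_iff] at h2
        obtain ⟨c, hc⟩ := h2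
        rw [hc, map_mul]
        refine Dvd.dvd.mul_right ?_ _
        have h3 : e PowerSeries.X = PowerSeries.X ^ (d + 2) := by
          rw [he]
          exact PowerSeries.expand_X (d + 2) (Nat.succ_ne_zero _)
        rw [h3]
        exact pow_dvd_pow _ (by omega)
      · have h2 : f.coeff m = 0 := by
          by_contra h2
          have := MvPolynomial.le_totalDegree (MvPolynomial.mem_support_iff.mpr h2)
          have h3 : m.degree ≤ f.totalDegree := this
          omega
        rw [h2, map_zero]
        exact dvd_zero _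
  obtain ⟨g', hg1, hg2, hg3⟩ := exists_rho PowerSeries.X g hdiv
  have hg4 : MvPolynomial.constantCoeff g' = 1 := by
    rw [hg3, hg, MvPolynomial.constantCoeff_map, h0, map_one]
  obtain ⟨n, i1, i2, i3, A, P, hF⟩ := linear_factor (R := PowerSeries k) hq g'
    (hg2.trans hgdeg) hg4
  refine ⟨n, i1, i2, i3, fun i => (PowerSeries.X : PowerSeries k) • A i, _,
    by rw [← hg1]; exact hF.rho PowerSeries.X, ?_⟩
  intro i a b
  exact ⟨A i a b, rfl⟩

end power

end DWF
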