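import Pool.Agent.DWF.Scale

set_option autoImplicit false

namespace DWF

open Matrix

section words

variable {R : Type*} [CommRing R] {σ : Type*} [Fintype σ] {n : Type*} [Fintype n] [DecidableEq n]

/-- `pencil A = 1 - lin A` -/
noncomputable def lin (A : σ → Matrix n n R) : Matrix n n (MvPolynomial σ R) :=
  ∑ i, (MvPolynomial.X i : MvPolynomial σ R) • (A i).map (MvPolynomial.C : R →+* MvPolynomial σ R)

lemma pencil_eq (A : σ → Matrix n n R) : pencil A = 1 - lin A := rfl

lemma lin_pow_mem (A : σ → Matrix n n R) (N : ℕ) :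
    (lin A) ^ N ∈ Submodule.span (MvPolynomial σ R)
      {M : Matrix n n (MvPolynomial σ R) | ∃ l : List σ, l.length = N ∧
        M = ((l.map A).prod).map (MvPolynomial.C : R →+* MvPolynomial σ R)} := by
  induction N with
  | zero =>
    refine Submodule.subset_span ⟨[], rfl, ?_⟩
    rw [pow_zero, List.map_nil, List.prod_nil]
    exact (map_one (MvPolynomial.C : R →+* MvPolynomial σ R).mapMatrix).symm
  | succ N ih =>
    rw [pow_succ']
    have key : ∀ y ∈ Submodule.span (MvPolynomial σ R)
      {M : Matrix n n (MvPolynomial σ R) | ∃ l : List σ, l.length = N ∧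
        M = ((l.map A).prod).map (MvPolynomial.C : R →+* MvPolynomial σ R)},
        lin A * y ∈ Submodule.span (MvPolynomial σ R)
      {M : Matrix n n (MvPolynomial σ R) | ∃ l : List σ, l.length = N + 1 ∧
        M = ((l.map A).prod).map (MvPolynomial.C : R →+* MvPolynomial σ R)} := by
      intro y hy
      induction hy using Submodule.span_induction with
      | mem x hx =>
        obtain ⟨l, hl, rfl⟩ := hx
        rw [lin, Finset.sum_mul]
        refine Submodule.sum_mem _ fun i _ => ?_
        rw [Matrix.smul_mul]
        refine Submodule.smul_mem _ _ (Submodule.subset_span ⟨i :: l, by simp [hl], ?_⟩)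
        rw [List.map_cons, List.prod_cons]
        exact (map_mul (MvPolynomial.C : R →+* MvPolynomial σ R).mapMatrix (A i) _).symm
      | zero => rw [mul_zero]; exact Submodule.zero_mem _
      | add x y _ _ hx hy => rw [mul_add]; exact Submodule.add_mem _ hx hy
      | smul a x _ hx =>
        rw [Matrix.mul_smul]
        exact Submodule.smul_mem _ a hx
    exact key _ ih

/-- if all words of length `N` in the `A i` vanish, the pencil is invertible -/
lemma pencil_isUnit {A : σ → Matrix n n R} {N : ℕ}
    (h : ∀ l : List σ, l.length = N → (l.map A).prod = 0) : IsUnit (pencil A) := by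
  have h0 : (lin A) ^ N = 0 := by
    have h1 := lin_pow_mem A N
    have h2 : Submodule.span (MvPolynomial σ R)
      {M : Matrix n n (MvPolynomial σ R) | ∃ l : List σ, l.length = N ∧
        M = ((l.map A).prod).map (MvPolynomial.C : R →+* MvPolynomial σ R)} ≤ ⊥ := by
      rw [Submodule.span_le]
      rintro M ⟨l, hl, rfl⟩
      rw [h l hl]
      exact map_zero (MvPolynomial.C : R →+* MvPolynomial σ R).mapMatrix
    exact (Submodule.mem_bot _).mp (h2 h1)
  rw [pencil_eq]
  exact IsNilpotent.isUnit_one_sub ⟨N, h0⟩

/-- hence `f` is constant, equal to `1`, when `R` is a domain -/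
lemma Fac.eq_one [IsDomain R] [Nonempty n] {f : MvPolynomial σ R} {d : ℕ}
    {A : σ → Matrix n n R} {P : Matrix n n (MvPolynomial σ R)} (hF : Fac f d A P) {N : ℕ}
    (h : ∀ l : List σ, l.length = N → (l.map A).prod = 0)
    (h0 : MvPolynomial.constantCoeff f = 1) : f = 1 := by
  have hu := hF.isUnit (pencil_isUnit h)
  rw [MvPolynomial.isUnit_iff_eq_C_of_isReduced] at hu
  obtain ⟨c, -, hc⟩ := hu
  rw [hc, MvPolynomial.constantCoeff_C] at h0
  rw [hc, h0, map_one]

end words

end DWF
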